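import Pool.Agent.Lib.MP_305fdd_al.F8.StmE

/-!
# Figure-eight knot group, block E: the choice of `g, h` (piece Ech)
-/

set_option autoImplicit false

namespace Pool.Agent.F8

theorem ech_comm {K : Type} [Field K] (A B : SL2 K) :
    tr (A * B * A⁻¹ * B⁻¹) - 2 =
      tr A ^ 2 + tr B ^ 2 + tr (A * B) ^ 2 - tr A * tr B * tr (A * B) - 4 := by
  have hA := A.det_coe
  have hB := B.det_coe
  rw [Matrix.det_fin_two] at hA hB
  simp only [tr_eq, Matrix.SpecialLinearGroup.coe_mul, Matrix.SpecialLinearGroup.coe_inv,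
    Matrix.adjugate_fin_two, Matrix.mul_apply, Fin.sum_univ_two, Matrix.of_apply,
    Matrix.cons_val_zero, Matrix.cons_val_one, Matrix.cons_val', Matrix.cons_val_fin_one]
  generalize A.val 0 0 = a at *
  generalize A.val 0 1 = b at *
  generalize A.val 1 0 = c at *
  generalize A.val 1 1 = d at *
  generalize B.val 0 0 = a' at *
  generalize B.val 0 1 = b' at *
  generalize B.val 1 0 = c' at *
  generalize B.val 1 1 = d' at *
  grind

theorem ech_sq {K : Type} [Field K] (A B : SL2 K) :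
    tr (A * B * B) = tr (A * B) * tr B - tr A := by
  have hB := B.det_coe
  rw [Matrix.det_fin_two] at hB
  simp only [tr_eq, Matrix.SpecialLinearGroup.coe_mul, Matrix.mul_apply, Fin.sum_univ_two]
  grind

theorem ech_inv {K : Type} [Field K] (A : SL2 K) : tr A⁻¹ = tr A := by
  simp only [tr_eq, Matrix.SpecialLinearGroup.coe_inv,
    Matrix.adjugate_fin_two, Matrix.of_apply,
    Matrix.cons_val_zero, Matrix.cons_val_one, Matrix.cons_val', Matrix.cons_val_fin_one]
  ring

theorem p_Ech : S_Ech := by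
  intro K G _ _ _ s hs
  obtain ⟨g, h, hgh⟩ := hs
  by_cases hx : tr (s g) ^ 2 = 4
  swap
  · exact ⟨g, h, hgh, hx⟩
  by_cases hy : tr (s h) ^ 2 = 4
  swap
  · refine ⟨h, g, ?_, hy⟩
    have e : h * g * h⁻¹ * g⁻¹ = (g * h * g⁻¹ * h⁻¹)⁻¹ := by group
    rw [e, map_inv, ech_inv]
    exact hgh
  by_cases hz : tr (s (g * h)) ^ 2 = 4
  swap
  · refine ⟨g * h, h, ?_, hz⟩
    have e : g * h * h * (g * h)⁻¹ * h⁻¹ = g * h * g⁻¹ * h⁻¹ := by group
    rw [e]
    exact hgh
  have hc := ech_comm (s g) (s h)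
  have e1 : s g * s h * (s g)⁻¹ * (s h)⁻¹ = s (g * h * g⁻¹ * h⁻¹) := by simp
  rw [e1, ← map_mul] at hc
  have hq := ech_sq (s g) (s h)
  rw [← map_mul, ← map_mul] at hq
  refine ⟨g * h * h, h, ?_, ?_⟩
  · have e : g * h * h * h * (g * h * h)⁻¹ * h⁻¹ = g * h * g⁻¹ * h⁻¹ := by group
    rw [e]
    exact hgh
  · rw [hq]
    generalize tr (s g) = x at *
    generalize tr (s h) = y at *
    generalize tr (s (g * h)) = z at *
    generalize tr (s (g * h * g⁻¹ * h⁻¹)) = t at *
    have h64 : (x * y * z - 8) * (x * y * z + 8) = 0 := by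
      have : (x * y * z) ^ 2 = 64 := by
        rw [mul_pow, mul_pow, hx, hy, hz]; norm_num
      linear_combination this
    rcases mul_eq_zero.mp h64 with h8 | h8
    · exfalso
      apply hgh
      linear_combination hc + hx + hy + hz - h8
    · intro h9
      have h10 : (32 : K) = 0 := by
        linear_combination h9 - y ^ 2 * hz - 4 * hy - hx + 2 * h8
      norm_num at h10

end Pool.Agent.F8
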