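import Pool.Agent.Lib.MP_305fdd_al.F8.StmE

/-!
# Figure-eight knot group, block E, piece Eds (the descent step)
-/

set_option autoImplicit false

namespace Pool.Agent.F8

theorem p_Eds (h1 : S_Evl) : S_Eds := by
  intro a b b1 r hr hc
  have hb : b ≠ 0 := fun h => hc (by rw [h, zero_mul])
  have hb1 : b1 ≠ 0 := fun h => hc (by rw [h, mul_zero])
  constructor
  · intro hLA π hπ h2
    obtain ⟨C, hC⟩ := hLA π hπ h2
    obtain ⟨v, hv⟩ := h1 π hπ (b * b1) hc
    obtain ⟨v', hv'⟩ := h1 π hπ b hb
    refine ⟨C + v + v', fun K => ?_⟩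
    obtain ⟨x, y, z, hd, hnd⟩ := hC K
    refine ⟨z + r * x, b * y, r * z + a * x, ?_, ?_⟩
    · have e : a * (z + r * x) ^ 2 + b1 * (b * y) ^ 2 - (r * z + a * x) ^ 2 =
          (b * b1) * (a * x ^ 2 + b * y ^ 2 - z ^ 2) := by
        linear_combination (a * x ^ 2 - z ^ 2) * hr
      rw [e]
      exact hd.mul_left _
    · rintro ⟨dX, dY, dZ⟩
      apply hnd
      have dX' : π ^ (C + v) ∣ z + r * x := (pow_dvd_pow π (by omega)).trans dX
      have dZ' : π ^ (C + v) ∣ r * z + a * x := (pow_dvd_pow π (by omega)).trans dZ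
      refine ⟨?_, ?_, ?_⟩
      · apply hv
        have e : b * b1 * x = r * (z + r * x) - (r * z + a * x) := by
          linear_combination (-x) * hr
        rw [e]
        exact dvd_sub (dX'.mul_left _) dZ'
      · apply hv'
        exact (pow_dvd_pow π (by omega)).trans dY
      · apply hv
        have e : b * b1 * z = r * (r * z + a * x) - a * (z + r * x) := by
          linear_combination (-z) * hr
        rw [e]
        exact dvd_sub (dZ'.mul_left _) (dX'.mul_left _)
  · rintro ⟨X, Y, Z, hne, he⟩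
    refine ⟨Z + r * X, b1 * Y, r * Z + a * X, ?_, ?_⟩
    · rintro ⟨hX, hY, hZ⟩
      apply hne
      have hY0 : Y = 0 := (mul_eq_zero.mp hY).resolve_left hb1
      have hX0 : b * b1 * X = 0 := by
        linear_combination (-X) * hr + r * hX - hZ
      have hZ0 : b * b1 * Z = 0 := by
        linear_combination (-Z) * hr + r * hZ - a * hX
      exact ⟨(mul_eq_zero.mp hX0).resolve_left hc, hY0, (mul_eq_zero.mp hZ0).resolve_left hc⟩
    · linear_combination (a * X ^ 2 - Z ^ 2) * hr + (b * b1) * he

end Pool.Agent.F8
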