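import Pool.Agent.Lib.MP_305fdd_al.F8.StmE

/-!
# Figure-eight knot group, block E: piece Elg
-/

set_option autoImplicit false

namespace Pool.Agent.F8

private lemma elg_step (h1 : S_Esc) (h2 : S_Esb) (h3 : S_Enm) (h4 : S_Eds) (h5 : S_Eun) (n : ℕ)
    (ih : ∀ a b : O, nn a + nn b < n → a ≠ 0 → b ≠ 0 → LA a b → Sol a b) (a b : O)
    (hn : nn a + nn b < n + 1) (hab : nn a ≤ nn b) (ha : a ≠ 0) (hb : b ≠ 0) (hL : LA a b) :
    Sol a b := by
  have ha0 : nn a ≠ 0 := fun h => ha (nn_eq_zero.mp h)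
  have hb0 : nn b ≠ 0 := fun h => hb (nn_eq_zero.mp h)
  by_cases hSf : Sf b
  · by_cases hb1 : nn b = 1
    · exact h5 a b (by omega) hb1
    · have hb3 : 3 ≤ nn b := h3.2 b (by omega)
      obtain ⟨r0, c, hc⟩ := h2 a b hSf hb hL
      obtain ⟨q, hq⟩ := exists_small r0 b hb
      have hr : (r0 - b * q) ^ 2 - a = b * (c - 2 * r0 * q + b * q ^ 2) := by
        linear_combination hc
      by_cases hb1 : c - 2 * r0 * q + b * q ^ 2 = 0
      · rw [hb1, mul_zero, sub_eq_zero] at hr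
        refine ⟨1, 0, r0 - b * q, fun h => one_ne_zero h.1, ?_⟩
        rw [hr]; ring
      · have hlt : nn ((r0 - b * q) ^ 2 - a) < nn b ^ 2 := by
          refine h3.1 _ a (nn b) hb3 ?_ hab
          rw [sq, nn_mul]
          calc 9 * (nn (r0 - b * q) * nn (r0 - b * q))
              = (3 * nn (r0 - b * q)) * (3 * nn (r0 - b * q)) := by ring
            _ ≤ nn b * nn b := Nat.mul_le_mul hq hq
            _ = nn b ^ 2 := (sq _).symm
        rw [hr, nn_mul, sq (nn b)] at hlt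
        have hlt' : nn (c - 2 * r0 * q + b * q ^ 2) < nn b := Nat.lt_of_mul_lt_mul_left hlt
        obtain ⟨k1, k2⟩ := h4 a b _ (r0 - b * q) hr (mul_ne_zero hb hb1)
        exact k2 (ih a _ (by omega) ha hb1 (k1 hL))
  · unfold Sf at hSf
    push Not at hSf
    obtain ⟨c, ⟨b', hb'⟩, hc⟩ := hSf
    have hc0 : c ≠ 0 := by
      rintro rfl
      apply hb
      rw [hb']; ring
    have hb'0 : b' ≠ 0 := by
      rintro rfl
      apply hb
      rw [hb']; ring
    have hnc : 2 ≤ nn c := by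
      have e1 : nn c ≠ 0 := fun h => hc0 (nn_eq_zero.mp h)
      have e2 : nn c ≠ 1 := fun h => hc (isUnit_of_nn h)
      omega
    have hnb' : nn b' ≠ 0 := fun h => hb'0 (nn_eq_zero.mp h)
    have hlt : nn b' < nn b := by
      rw [hb', sq, nn_mul, nn_mul]
      have e3 : 4 ≤ nn c * nn c := by nlinarith
      have e4 : 0 < nn b' := Nat.pos_of_ne_zero hnb'
      nlinarith
    have hbb : b = b' * c ^ 2 := by rw [hb']; ring
    have hL1 : LA (b' * c ^ 2) a := by rw [← hbb]; exact h1.1 a b hL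
    have hL2 : LA a b' := h1.1 b' a (h1.2.2.1 b' a c hc0 hL1)
    have hS : Sol a b' := ih a b' (by omega) ha hb'0 hL2
    have hS2 : Sol (b' * c ^ 2) a := h1.2.2.2 b' a c hc0 (h1.2.1 a b' hS)
    rw [← hbb] at hS2
    exact h1.2.1 b a hS2

theorem p_Elg (h1 : S_Esc) (h2 : S_Esb) (h3 : S_Enm) (h4 : S_Eds) (h5 : S_Eun) : S_Elg := by
  have key : ∀ n : ℕ, ∀ a b : O, nn a + nn b < n → a ≠ 0 → b ≠ 0 → LA a b → Sol a b := by
    intro n
    induction n with
    | zero => intro a b h; omega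
    | succ n ih =>
      intro a b hn ha hb hL
      rcases le_total (nn a) (nn b) with h | h
      · exact elg_step h1 h2 h3 h4 h5 n ih a b hn h ha hb hL
      · exact h1.2.1 b a (elg_step h1 h2 h3 h4 h5 n ih b a (by omega) h hb ha (h1.1 a b hL))
  intro a b ha hb hL
  exact key (nn a + nn b + 1) a b (by omega) ha hb hL

end Pool.Agent.F8
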