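import Pool.Agent.Lib.MP_305fdd_al.F8.StmE

set_option autoImplicit false

namespace Pool.Agent.F8

theorem p_Enm : S_Enm := by
  constructor
  · intro u v n hn hu hv
    have h1 := nn_cast u
    have h2 := nn_cast v
    have h3 := nn_cast (u - v)
    have h4 := nn_nonneg (2 * u + v)
    have e1 : (2 * u + v).re = 2 * u.re + v.re := by
      rw [two_mul, QuadraticAlgebra.re_add, QuadraticAlgebra.re_add]; ring
    have e2 : (2 * u + v).im = 2 * u.im + v.im := by
      rw [two_mul, QuadraticAlgebra.im_add, QuadraticAlgebra.im_add]; ring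
    rw [e1, e2] at h4
    rw [QuadraticAlgebra.re_sub, QuadraticAlgebra.im_sub] at h3
    have hu' : 9 * (nn u : ℤ) ≤ (n : ℤ) ^ 2 := by exact_mod_cast hu
    have hv' : (nn v : ℤ) ≤ n := by exact_mod_cast hv
    have hn' : (3 : ℤ) ≤ n := by exact_mod_cast hn
    have h5 : 2 * (nn (u - v) : ℤ) ≤ 6 * nn u + 3 * nn v := by
      rw [h1, h2, h3]
      linarith
    have h6 : (nn (u - v) : ℤ) < (n : ℤ) ^ 2 := by
      nlinarith
    exact_mod_cast h6
  · intro b hb
    by_contra h
    have h2 : nn b = 2 := by omega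
    have h1 := nn_cast b
    rw [h2] at h1
    rcases Int.even_or_odd' b.re with ⟨x, hx | hx⟩ <;>
      rcases Int.even_or_odd' b.im with ⟨y, hy | hy⟩ <;> rw [hx, hy] at h1 <;> push_cast at h1 <;>
      ring_nf at h1 <;> omega

end Pool.Agent.F8
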