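import Pool.Agent.Lib.MP_305fdd_al.F8.StmE

/-!
# Figure-eight knot group, block E, piece Esb: squares modulo a squarefree element
-/

set_option autoImplicit false

namespace Pool.Agent.F8

theorem p_Esb (h1 : S_Esq) : S_Esb := by
  intro a b hsf hb hLA
  have key : ∀ d : O, d ∣ b → ∃ r : O, d ∣ r ^ 2 - a := by
    intro d
    induction d using UniqueFactorizationMonoid.induction_on_prime with
    | h₁ =>
      intro h
      exact absurd (zero_dvd_iff.1 h) hb
    | h₂ x hx =>
      intro _
      exact ⟨0, hx.dvd⟩
    | h₃ d' π hd' hπ ih =>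
      intro hdvd
      obtain ⟨r', hr'⟩ := ih ((Dvd.intro_left π rfl).trans hdvd)
      have hπb : π ∣ b := (Dvd.intro d' rfl).trans hdvd
      obtain ⟨s, hs⟩ := h1 π a b hπ hsf hπb (fun h2 => by
        obtain ⟨C, hC⟩ := hLA π hπ h2
        exact ⟨C, hC⟩)
      have hnd : ¬ π ∣ d' := by
        intro h
        obtain ⟨e, he⟩ := h
        apply hπ.not_isUnit
        apply hsf π
        refine Dvd.dvd.trans ?_ hdvd
        exact ⟨e, by rw [he]; ring⟩
      have hcop : IsCoprime π d' := (hπ.irreducible.coprime_iff_not_dvd).2 hnd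
      have hcop' := hcop
      obtain ⟨u, v, huv⟩ := hcop
      refine ⟨s * (v * d') + r' * (u * π), ?_⟩
      apply hcop'.mul_dvd
      · have e : (s * (v * d') + r' * (u * π)) ^ 2 - a =
            (s ^ 2 - a) + π * (u * (r' - s) * (2 * s + u * π * (r' - s))) := by
          have hv : v * d' = 1 - u * π := by linear_combination huv
          rw [hv]; ring
        rw [e]
        exact dvd_add hs (Dvd.intro _ rfl)
      · have e : (s * (v * d') + r' * (u * π)) ^ 2 - a =
            (r' ^ 2 - a) + d' * (v * (s - r') * (2 * r' + v * d' * (s - r'))) := by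
          have hv : u * π = 1 - v * d' := by linear_combination huv
          rw [hv]; ring
        rw [e]
        exact dvd_add hr' (Dvd.intro _ rfl)
  exact key b dvd_rfl

end Pool.Agent.F8
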