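import Pool.Agent.Lib.MP_305fdd_al.F8.StmE

/-!
# Figure-eight knot group, block E: symmetry and scaling (piece Esc)
-/

set_option autoImplicit false

namespace Pool.Agent.F8

private theorem esc_sym (a b : O) (h : LA a b) : LA b a := by
  intro π hπ h2
  obtain ⟨C, hC⟩ := h π hπ h2
  refine ⟨C, fun K => ?_⟩
  obtain ⟨x, y, z, h3, h4⟩ := hC K
  refine ⟨y, x, z, ?_, fun h5 => h4 ⟨h5.2.1, h5.1, h5.2.2⟩⟩
  rw [add_comm (b * y ^ 2)]
  exact h3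

private theorem esc_sol (a b : O) (h : Sol a b) : Sol b a := by
  obtain ⟨x, y, z, h1, h2⟩ := h
  exact ⟨y, x, z, fun h3 => h1 ⟨h3.2.1, h3.1, h3.2.2⟩, by rw [add_comm (b * y ^ 2)]; exact h2⟩

/-- Piece Esc -/
theorem p_Esc (h1 : S_Evl) : S_Esc := by
  refine ⟨esc_sym, esc_sol, ?_, ?_⟩
  · intro a b c hc h π hπ h2
    obtain ⟨C, hC⟩ := h π hπ h2
    obtain ⟨v, hv⟩ := h1 π hπ c hc
    refine ⟨C + v, fun K => ?_⟩
    obtain ⟨x, y, z, h3, h4⟩ := hC K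
    refine ⟨c * x, y, z, ?_, fun h5 => h4 ⟨hv C x h5.1, ?_, ?_⟩⟩
    · have h6 : a * (c * x) ^ 2 + b * y ^ 2 - z ^ 2 = a * c ^ 2 * x ^ 2 + b * y ^ 2 - z ^ 2 := by
        ring
      rw [h6]
      exact h3
    · exact (pow_dvd_pow π (Nat.le_add_right C v)).trans h5.2.1
    · exact (pow_dvd_pow π (Nat.le_add_right C v)).trans h5.2.2
  · rintro a b c hc ⟨x, y, z, h2, h3⟩
    refine ⟨x, c * y, c * z, ?_, ?_⟩
    · rintro ⟨hx, hy, hz⟩
      exact h2 ⟨hx, (mul_eq_zero.mp hy).resolve_left hc, (mul_eq_zero.mp hz).resolve_left hc⟩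
    · linear_combination c ^ 2 * h3

end Pool.Agent.F8
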