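import Pool.Agent.Lib.MP_305fdd_al.F8.StmE

/-!
# MP_305fdd_al, figure-eight knot group, block E: piece Esq
-/

set_option autoImplicit false

namespace Pool.Agent.F8

private theorem esq_primitive (π a b x y z : O) (C : ℕ) (hπ : Prime π)
    (hdiv : π ^ (2 * C + 2) ∣ a * x ^ 2 + b * y ^ 2 - z ^ 2)
    (hnot : ¬ (π ^ C ∣ x ∧ π ^ C ∣ y ∧ π ^ C ∣ z)) :
    ∃ x' y' z' : O, π ^ 2 ∣ a * x' ^ 2 + b * y' ^ 2 - z' ^ 2 ∧ ¬ (π ∣ x' ∧ π ∣ y' ∧ π ∣ z') := by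
  classical
  have hex : ∃ n : ℕ, ¬ (π ^ n ∣ x ∧ π ^ n ∣ y ∧ π ^ n ∣ z) := ⟨C, hnot⟩
  have hspec := Nat.find_spec hex
  have hnC : Nat.find hex ≤ C := Nat.find_min' hex hnot
  have hn0 : Nat.find hex ≠ 0 := by
    intro h0
    rw [h0] at hspec
    apply hspec
    simp
  obtain ⟨c, hc⟩ := Nat.exists_eq_succ_of_ne_zero hn0
  have hcd := not_not.1 (Nat.find_min hex (show c < Nat.find hex by omega))
  rw [hc] at hspec
  obtain ⟨⟨x', rfl⟩, ⟨y', rfl⟩, ⟨z', rfl⟩⟩ := hcd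
  refine ⟨x', y', z', ?_, ?_⟩
  · have h1 : π ^ (2 * c) * π ^ 2 ∣
        π ^ (2 * c) * (a * x' ^ 2 + b * y' ^ 2 - z' ^ 2) := by
      have h2 : π ^ (2 * c) * π ^ 2 ∣ π ^ (2 * C + 2) := by
        rw [← pow_add]
        exact pow_dvd_pow _ (by omega)
      have h3 : a * (π ^ c * x') ^ 2 + b * (π ^ c * y') ^ 2 - (π ^ c * z') ^ 2 =
          π ^ (2 * c) * (a * x' ^ 2 + b * y' ^ 2 - z' ^ 2) := by
        rw [two_mul, pow_add]; ring
      rw [← h3]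
      exact h2.trans hdiv
    exact (mul_dvd_mul_iff_left (pow_ne_zero _ hπ.ne_zero)).1 h1
  · rintro ⟨h1, h2, h3⟩
    apply hspec
    rw [pow_succ]
    exact ⟨mul_dvd_mul_left _ h1, mul_dvd_mul_left _ h2, mul_dvd_mul_left _ h3⟩

theorem p_Esq : S_Esq := by
  intro π a b hπ hSf hπb hLS
  by_cases h2 : π ∣ 2
  · refine ⟨a ^ 2, h2.trans ?_⟩
    have h := two_dvd_pow_four a
    rwa [show a ^ 4 = (a ^ 2) ^ 2 by ring] at h
  by_cases ha : π ∣ a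
  · refine ⟨0, ?_⟩
    have : (0 : O) ^ 2 - a = -a := by ring
    rw [this]
    exact (dvd_neg).2 ha
  obtain ⟨C, hC⟩ := hLS h2
  obtain ⟨x₀, y₀, z₀, hdiv, hnot⟩ := hC (2 * C + 2)
  obtain ⟨x, y, z, h3, hnd⟩ := esq_primitive π a b x₀ y₀ z₀ C hπ hdiv hnot
  have h1 : π ∣ a * x ^ 2 + b * y ^ 2 - z ^ 2 := (dvd_pow_self π (two_ne_zero)).trans h3
  have hx : ¬ π ∣ x := by
    intro hx
    have hz : π ∣ z := by
      have h4 : π ∣ z ^ 2 := by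
        have h5 : z ^ 2 = a * x ^ 2 + b * y ^ 2 - (a * x ^ 2 + b * y ^ 2 - z ^ 2) := by ring
        rw [h5]
        exact dvd_sub (dvd_add ((hx.trans (dvd_pow_self x two_ne_zero)).mul_left a)
          (hπb.mul_right _)) h1
      exact hπ.dvd_of_dvd_pow h4
    have hy2 : π ^ 2 ∣ b * y ^ 2 := by
      have h5 : b * y ^ 2 = (a * x ^ 2 + b * y ^ 2 - z ^ 2) - a * x ^ 2 + z ^ 2 := by ring
      rw [h5]
      exact dvd_add (dvd_sub h3 ((pow_dvd_pow_of_dvd hx 2).mul_left a)) (pow_dvd_pow_of_dvd hz 2)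
    obtain ⟨b', rfl⟩ := hπb
    have h6 : π ∣ b' * y ^ 2 := by
      have : π * π ∣ π * (b' * y ^ 2) := by
        rw [← mul_assoc, ← pow_two]
        exact hy2
      exact (mul_dvd_mul_iff_left hπ.ne_zero).1 this
    rcases hπ.dvd_or_dvd h6 with h7 | h7
    · apply hπ.not_isUnit
      apply hSf π
      rw [pow_two]
      exact mul_dvd_mul_left π h7
    · exact hnd ⟨hx, hπ.dvd_of_dvd_pow h7, hz⟩
  obtain ⟨v, u, huv⟩ : IsCoprime π x := (hπ.irreducible.coprime_iff_not_dvd).2 hx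
  refine ⟨z * u, ?_⟩
  -- modulo `π`: `r ^ 2 = z ^ 2 u ^ 2 = a x ^ 2 u ^ 2 = a`
  have e : (z * u) ^ 2 - a = -(u ^ 2 * (a * x ^ 2 + b * y ^ 2 - z ^ 2)) + b * (y ^ 2 * u ^ 2) +
      π * (-(a * v * (u * x + 1))) := by
    have e1 : u * x - 1 = - (v * π) := by linear_combination huv
    linear_combination (a * (u * x + 1)) * e1
  rw [e]
  exact dvd_add (dvd_add ((dvd_neg).2 (h1.mul_left _)) (hπb.mul_right _)) (dvd_mul_right _ _)

end Pool.Agent.F8
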