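import Pool.Agent.Lib.MP_305fdd_al.F8.StmE

/-!
# Figure-eight knot group, block E: proof of `S_Eun`
-/

set_option autoImplicit false

namespace Pool.Agent.F8

/-- a unit is plus or minus a square of a unit -/
private theorem eun_sq (a : O) (ha : nn a = 1) : ∃ c : O, c ≠ 0 ∧ (a = c ^ 2 ∨ a = -c ^ 2) := by
  have h1 := nn_cast a
  rw [ha] at h1
  obtain ⟨x, y⟩ := a
  simp only [Nat.cast_one] at h1
  have hy1 : y ≤ 1 := by nlinarith [sq_nonneg (2 * x - y)]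
  have hy2 : -1 ≤ y := by nlinarith [sq_nonneg (2 * x - y)]
  have hx1 : x ≤ 1 := by nlinarith [sq_nonneg (2 * y - x)]
  have hx2 : -1 ≤ x := by nlinarith [sq_nonneg (2 * y - x)]
  have n1 : (⟨1, 0⟩ : O) ≠ 0 := by
    intro h; have := congrArg QuadraticAlgebra.re h; simp at this
  have n2 : (⟨0, 1⟩ : O) ≠ 0 := by
    intro h; have := congrArg QuadraticAlgebra.im h; simp at this
  have n3 : (⟨-1, -1⟩ : O) ≠ 0 := by
    intro h; have := congrArg QuadraticAlgebra.im h; simp at this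
  interval_cases x <;> interval_cases y <;> first
    | (exfalso; revert h1; norm_num; done)
    | (refine ⟨⟨1, 0⟩, n1, Or.inl ?_⟩; ext <;> simp [pow_two]; done)
    | (refine ⟨⟨1, 0⟩, n1, Or.inr ?_⟩; ext <;> simp [pow_two]; done)
    | (refine ⟨⟨0, 1⟩, n2, Or.inl ?_⟩; ext <;> simp [pow_two]; done)
    | (refine ⟨⟨0, 1⟩, n2, Or.inr ?_⟩; ext <;> simp [pow_two]; done)
    | (refine ⟨⟨-1, -1⟩, n3, Or.inl ?_⟩; ext <;> simp [pow_two]; done)
    | (refine ⟨⟨-1, -1⟩, n3, Or.inr ?_⟩; ext <;> simp [pow_two]; done)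

theorem p_Eun : S_Eun := by
  intro a b ha hb
  obtain ⟨c, hc0, hc⟩ := eun_sq a ha
  obtain ⟨d, hd0, hd⟩ := eun_sq b hb
  rcases hc with hc | hc
  · refine ⟨1, 0, c, fun h => one_ne_zero h.1, ?_⟩
    rw [hc]; ring
  rcases hd with hd | hd
  · refine ⟨0, 1, d, fun h => one_ne_zero h.2.1, ?_⟩
    rw [hd]; ring
  refine ⟨d, om ℤ * om ℤ * c, c * d * om ℤ, fun h => hd0 h.1, ?_⟩
  have hw := om_sq ℤ
  rw [hc, hd]
  linear_combination (-(c ^ 2 * d ^ 2) * (om ℤ ^ 2 - om ℤ + 1)) * hw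

end Pool.Agent.F8
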