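import Pool.Agent.Lib.MP_305fdd_al.F8.StmE

/-!
# Figure-eight knot group, block E: multiplication and divisibility by powers of a prime
-/

set_option autoImplicit false

namespace Pool.Agent.F8

theorem p_Evl : S_Evl := by
  intro π hπ c hc
  have hfin : FiniteMultiplicity π c := FiniteMultiplicity.of_prime_left hπ hc
  obtain ⟨c', hc', hd⟩ := hfin.exists_eq_pow_mul_and_not_dvd
  refine ⟨multiplicity π c, fun C x h => ?_⟩
  set v := multiplicity π c with hv
  rw [hc', add_comm, pow_add, mul_assoc] at h
  have h1 := (mul_dvd_mul_iff_left (pow_ne_zero v hπ.ne_zero)).1 h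
  exact hπ.pow_dvd_of_dvd_mul_left _ hd h1

end Pool.Agent.F8
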