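import Pool.Agent.Lib.MP_305fdd_al.F8.StmE

/-!
# Figure-eight knot group, block E, main statement
-/

set_option autoImplicit false

namespace Pool.Agent.F8

theorem p_E (h1 : S_Ech) (h2 : S_Els) (h3 : S_Elg) (h4 : S_Esx) (h5 : S_El1) (h6 : S_El2) :
    S_E := by
  intro Λ Om _ _ _ j hj s T hT hs hL
  obtain ⟨g, h, hb, ha⟩ := h1 Om Λ s hs
  have ha' : T g ^ 2 - 4 ≠ 0 := by
    intro h0
    apply ha
    have := congrArg j h0
    rw [map_sub, map_pow, ← hT, map_zero, map_ofNat] at this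
    exact sub_eq_zero.mp this
  have hb' : T (g * h * g⁻¹ * h⁻¹) - 2 ≠ 0 := by
    intro h0
    apply hb
    have := congrArg j h0
    rw [map_sub, ← hT, map_zero, map_ofNat] at this
    exact sub_eq_zero.mp this
  have hLA := h2 Λ T hL g h ha'
  have hS := h3 _ _ ha' hb' hLA
  obtain ⟨ρ, hB, hρ⟩ := h4 Λ Om j hj s T hT g h ha' hb' hS
  obtain ⟨B, hB0, hM⟩ := h5 Λ ρ hB
  obtain ⟨ρ', hρ'⟩ := h6 Λ ρ B hB0 hM
  refine ⟨ρ', fun l => ?_⟩
  apply IsFractionRing.injective O (FractionRing O)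
  rw [hρ', hρ]

end Pool.Agent.F8
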