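import Pool.Agent.Lib.MP_305fdd_al.F8.StmE

/-!
# Figure-eight knot group, block E: piece Ect
-/

set_option autoImplicit false

namespace Pool.Agent.F8

private lemma ect_smul {K : Type} [Field K] (a : K) :
    a • (1 : Matrix (Fin 2) (Fin 2) K) = !![a, 0; 0, a] := by
  ext i k
  fin_cases i <;> fin_cases k <;> simp

theorem p_Ect : S_Ect := by
  intro K _ α β x y z h0 h
  by_cases hy : y = 0
  · have hx : x ≠ 0 := by
      intro hx
      apply h0
      refine ⟨hx, hy, ?_⟩
      rw [hx, hy] at h
      have h1 : z ^ 2 = 0 := by rw [← h]; ring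
      exact pow_eq_zero_iff (two_ne_zero) |>.1 h1
    have hd : (z / x) * (z / x) = α := by
      rw [hy] at h
      field_simp
      rw [← h]
      ring
    refine ⟨!![z / x, 0; 0, -(z / x)], !![0, β; 1, 0], ?_, ?_, ?_, ?_, ?_⟩
    · rw [ect_smul, Matrix.mul_fin_two]
      simp [hd]
    · rw [ect_smul, Matrix.mul_fin_two]
      simp
    · rw [Matrix.mul_fin_two, Matrix.mul_fin_two]
      ext i k
      fin_cases i <;> fin_cases k <;> simp [mul_comm]
    · simp [Matrix.trace_fin_two]
    · simp [Matrix.trace_fin_two]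
  · have hd : (z / y) * (z / y) - α * (x / y) * (x / y) = β := by
      field_simp
      linear_combination -h
    refine ⟨!![0, α; 1, 0], !![z / y, -(α * (x / y)); x / y, -(z / y)], ?_, ?_, ?_, ?_, ?_⟩
    · rw [ect_smul, Matrix.mul_fin_two]
      simp
    · rw [ect_smul, Matrix.mul_fin_two, ← hd]
      ext i k
      fin_cases i <;> fin_cases k <;> simp <;> ring
    · rw [Matrix.mul_fin_two, Matrix.mul_fin_two]
      ext i k
      fin_cases i <;> fin_cases k <;> simp [mul_comm]
    · simp [Matrix.trace_fin_two]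
    · simp [Matrix.trace_fin_two]

end Pool.Agent.F8
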