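import Pool.Agent.Lib.MP_305fdd_al.F8.StmE

/-!
# Figure-eight knot group, block E, piece Edc
-/

set_option autoImplicit false

namespace Pool.Agent.F8

theorem p_Edc : S_Edc := by
  intro R _ G H
  obtain ⟨G, hG⟩ := G
  obtain ⟨H, hH⟩ := H
  have dG := hG
  have dH := hH
  rw [Matrix.det_fin_two] at dG dH
  have hGe : G = !![G 0 0, G 0 1; G 1 0, G 1 1] := Matrix.eta_fin_two G
  have hHe : H = !![H 0 0, H 0 1; H 1 0, H 1 1] := Matrix.eta_fin_two H
  generalize G 0 0 = a at *
  generalize G 0 1 = b at *
  generalize G 1 0 = c at *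
  generalize G 1 1 = d at *
  generalize H 0 0 = a' at *
  generalize H 0 1 = b' at *
  generalize H 1 0 = c' at *
  generalize H 1 1 = d' at *
  subst hGe hHe
  set g : SL2 R := ⟨!![a, b; c, d], hG⟩ with hg
  set h : SL2 R := ⟨!![a', b'; c', d'], hH⟩ with hh
  have gv : g.val = !![a, b; c, d] := rfl
  have hv : h.val = !![a', b'; c', d'] := rfl
  have tg : tr g = a + d := by rw [tr_eq, gv]; rfl
  have hα : tr g ^ 2 - 4 = (a - d) * (a - d) + 4 * (b * c) := by
    rw [tg]; linear_combination (4 : R) * dG
  have hβ : tr (g * h * g⁻¹ * h⁻¹) - 2 = (b * c' - b' * c) * (b * c' - b' * c) +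
      (a * b' + b * d' - a' * b - b' * d) * (c * a' + d * c' - c' * a - d' * c) := by
    rw [tr_eq]
    simp only [Matrix.SpecialLinearGroup.coe_mul, Matrix.SpecialLinearGroup.coe_inv, gv, hv,
      Matrix.adjugate_fin_two_of, Matrix.mul_fin_two, Matrix.of_apply, Matrix.cons_val',
      Matrix.cons_val_zero, Matrix.cons_val_one, Matrix.cons_val_fin_one]
    linear_combination (2 * (a' * d' - b' * c')) * dG + (2 : R) * dH
  have qi : qI g = !![a - d, 2 * b; 2 * c, d - a] := by
    unfold qI
    rw [tg, gv]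
    ext i j
    fin_cases i <;> fin_cases j <;> simp <;> ring
  have qj : qJ g h = !![b * c' - b' * c, a * b' + b * d' - a' * b - b' * d;
      c * a' + d * c' - c' * a - d' * c, b' * c - b * c'] := by
    unfold qJ
    rw [gv, hv]
    ext i j
    fin_cases i <;> fin_cases j <;> simp [Matrix.mul_apply, Fin.sum_univ_two] <;> ring
  rw [hα, hβ, qi, qj]
  refine ⟨?_, ?_, ?_, ?_, ?_, ?_⟩
  · ext i j
    fin_cases i <;> fin_cases j <;> simp [Matrix.mul_apply, Fin.sum_univ_two] <;> ring
  · ext i j
    fin_cases i <;> fin_cases j <;> simp [Matrix.mul_apply, Fin.sum_univ_two] <;> ring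
  · ext i j
    fin_cases i <;> fin_cases j <;> simp [Matrix.mul_apply, Fin.sum_univ_two] <;> ring
  · rw [Matrix.trace_fin_two]; simp
  · rw [Matrix.trace_fin_two]; simp
  · intro X
    have hX : X.val = !![X.val 0 0, X.val 0 1; X.val 1 0, X.val 1 1] := Matrix.eta_fin_two X.val
    generalize X.val 0 0 = x at *
    generalize X.val 0 1 = y at *
    generalize X.val 1 0 = z at *
    generalize X.val 1 1 = w at *
    have tX : tr X = x + w := by rw [tr_eq, hX]; rfl
    rw [tX, tg]
    have t1 : tr (X * g) = x * a + y * c + (z * b + w * d) := by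
      rw [tr_eq, Matrix.SpecialLinearGroup.coe_mul, hX, gv]; simp [Matrix.mul_apply, Fin.sum_univ_two]
    have t2 : tr (X * g * h) = (x * a + y * c) * a' + (x * b + y * d) * c' +
        ((z * a + w * c) * b' + (z * b + w * d) * d') := by
      rw [tr_eq, Matrix.SpecialLinearGroup.coe_mul, Matrix.SpecialLinearGroup.coe_mul, hX, gv, hv]
      simp [Matrix.mul_apply, Fin.sum_univ_two]
    have t3 : tr (X * h * g) = (x * a' + y * c') * a + (x * b' + y * d') * c +
        ((z * a' + w * c') * b + (z * b' + w * d') * d) := by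
      rw [tr_eq, Matrix.SpecialLinearGroup.coe_mul, Matrix.SpecialLinearGroup.coe_mul, hX, gv, hv]
      simp [Matrix.mul_apply, Fin.sum_univ_two]
    have t4 : tr (X * g * g * h) = ((x * a + y * c) * a + (x * b + y * d) * c) * a' +
        ((x * a + y * c) * b + (x * b + y * d) * d) * c' +
        (((z * a + w * c) * a + (z * b + w * d) * c) * b' +
        ((z * a + w * c) * b + (z * b + w * d) * d) * d') := by
      rw [tr_eq, Matrix.SpecialLinearGroup.coe_mul, Matrix.SpecialLinearGroup.coe_mul,
        Matrix.SpecialLinearGroup.coe_mul, hX, gv, hv]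
      simp [Matrix.mul_apply, Fin.sum_univ_two]
    have t5 : tr (X * g * h * g) = ((x * a + y * c) * a' + (x * b + y * d) * c') * a +
        ((x * a + y * c) * b' + (x * b + y * d) * d') * c +
        (((z * a + w * c) * a' + (z * b + w * d) * c') * b +
        ((z * a + w * c) * b' + (z * b + w * d) * d') * d) := by
      rw [tr_eq, Matrix.SpecialLinearGroup.coe_mul, Matrix.SpecialLinearGroup.coe_mul,
        Matrix.SpecialLinearGroup.coe_mul, hX, gv, hv]
      simp [Matrix.mul_apply, Fin.sum_univ_two]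
    rw [t1, t2, t3, t4, t5, hX]
    ext i j
    fin_cases i <;> fin_cases j <;> simp [Matrix.mul_apply, Fin.sum_univ_two] <;> ring

end Pool.Agent.F8
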