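import Pool.Agent.Lib.MP_305fdd_al.F8.StmE

/-!
# Figure-eight knot group, block E: three solutions of `α x² + β y² = z²`
-/

set_option autoImplicit false

namespace Pool.Agent.F8

private theorem eid_det {R : Type} [CommRing R] (G : SL2 R) :
    G.val 0 0 * G.val 1 1 - G.val 0 1 * G.val 1 0 = 1 := by
  have h := G.2
  rw [Matrix.det_fin_two] at h
  exact h

private theorem eid_tr {R : Type} [CommRing R] (G : SL2 R) :
    tr G ^ 2 - 4 = (G.val 0 0 - G.val 1 1) ^ 2 + (2 * G.val 0 1) * (2 * G.val 1 0) := by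
  rw [tr_eq]
  linear_combination 4 * eid_det G

private theorem eid_comm {R : Type} [CommRing R] (G H : SL2 R) :
    tr (G * H * G⁻¹ * H⁻¹) - 2 =
      (G.val 0 1 * H.val 1 0 - H.val 0 1 * G.val 1 0) ^ 2 +
      (G.val 0 0 * H.val 0 1 + G.val 0 1 * H.val 1 1 - H.val 0 0 * G.val 0 1 -
        H.val 0 1 * G.val 1 1) *
      (G.val 1 0 * H.val 0 0 + G.val 1 1 * H.val 1 0 - H.val 1 0 * G.val 0 0 -
        H.val 1 1 * G.val 1 0) := by
  have hG := eid_det G
  have hH := eid_det H
  rw [tr_eq]
  simp only [Matrix.SpecialLinearGroup.coe_mul, Matrix.SpecialLinearGroup.coe_inv,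
    Matrix.adjugate_fin_two, Matrix.mul_apply, Fin.sum_univ_two, Matrix.of_apply,
    Matrix.cons_val', Matrix.cons_val_zero, Matrix.cons_val_one, Matrix.cons_val_fin_one]
  generalize G.val 0 0 = a at *
  generalize G.val 0 1 = b at *
  generalize G.val 1 0 = c at *
  generalize G.val 1 1 = d at *
  generalize H.val 0 0 = e at *
  generalize H.val 0 1 = f at *
  generalize H.val 1 0 = g at *
  generalize H.val 1 1 = h at *
  linear_combination 2 * (a * d - b * c) * hH + 2 * hG

theorem p_Eid : S_Eid := by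
  intro R _ G H
  rw [eid_tr, eid_comm]
  generalize G.val 0 0 = a
  generalize G.val 0 1 = b
  generalize G.val 1 0 = c
  generalize G.val 1 1 = d
  generalize H.val 0 0 = e
  generalize H.val 0 1 = f
  generalize H.val 1 0 = g
  generalize H.val 1 1 = h
  refine ⟨⟨c * e + d * g - g * a - h * c, (a - d) * (c * e + d * g - g * a - h * c) -
    2 * c * (b * g - f * c), ?_⟩, ⟨a * f + b * h - e * b - f * d,
    (a - d) * (a * f + b * h - e * b - f * d) - 2 * b * (b * g - f * c), ?_⟩,
    ⟨2 * (b * g - f * c) + (a * f + b * h - e * b - f * d) - (c * e + d * g - g * a - h * c),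
    ((a - d) + 2 * b) * ((c * e + d * g - g * a - h * c) - (b * g - f * c)) -
    (2 * c - (a - d)) * ((b * g - f * c) + (a * f + b * h - e * b - f * d)), ?_⟩⟩
  · ring
  · ring
  · ring

end Pool.Agent.F8
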