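import Pool.Agent.Lib.MP_305fdd_al.F8.StmE

/-!
# Figure-eight knot group, block E: kernel and surjectivity of the reduction
-/

set_option autoImplicit false

namespace Pool.Agent.F8

theorem p_Ekr : S_Ekr := by
  intro n
  constructor
  · intro z
    have h : rd n z = ⟨(z.re : ZMod n), (z.im : ZMod n)⟩ := rfl
    rw [h]
    constructor
    · intro h0
      have h1 : ((z.re : ℤ) : ZMod n) = 0 := congrArg QuadraticAlgebra.re h0
      have h2 : ((z.im : ℤ) : ZMod n) = 0 := congrArg QuadraticAlgebra.im h0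
      rw [ZMod.intCast_zmod_eq_zero_iff_dvd] at h1 h2
      obtain ⟨a, ha⟩ := h1
      obtain ⟨b, hb⟩ := h2
      refine ⟨⟨a, b⟩, ?_⟩
      ext
      · rw [ha]; simp
      · rw [hb]; simp
    · rintro ⟨w, rfl⟩
      ext
      · show (((n : O) * w).re : ZMod n) = 0
        simp
      · show (((n : O) * w).im : ZMod n) = 0
        simp
  · intro y
    obtain ⟨a, ha⟩ := ZMod.intCast_surjective y.re
    obtain ⟨b, hb⟩ := ZMod.intCast_surjective y.im
    refine ⟨⟨a, b⟩, ?_⟩
    ext
    · exact ha
    · exact hb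

end Pool.Agent.F8
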