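import Pool.Agent.Lib.MP_305fdd_al.F8.StmE

set_option autoImplicit false

namespace Pool.Agent.F8

/-- the fraction field -/
abbrev el1_K : Type := FractionRing O

theorem p_El1 : S_El1 := by
  intro Λ _ ρ ⟨D, hD, hden⟩
  classical
  have inj : Function.Injective (algebraMap O el1_K) := IsFractionRing.injective O el1_K
  have hD' : algebraMap O el1_K D ≠ 0 := fun h => hD (inj (by rw [h, map_zero]))
  let S : Set (Fin 2 → el1_K) := {v | ∃ (l : Λ) (i : Fin 2), v = (ρ l).val.mulVec (Pi.single i 1)}
  let L : Submodule O (Fin 2 → el1_K) := Submodule.span O S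
  let φ : (Fin 2 → O) →ₗ[O] (Fin 2 → el1_K) :=
    { toFun := fun n i => (algebraMap O el1_K D)⁻¹ * algebraMap O el1_K (n i)
      map_add' := fun n m => by ext i; simp [mul_add]
      map_smul' := fun c n => by
        ext i
        simp only [Pi.smul_apply, smul_eq_mul, map_mul, RingHom.id_apply, Algebra.smul_def]
        ring }
  have hLφ : L ≤ LinearMap.range φ := by
    apply Submodule.span_le.mpr
    rintro v ⟨l, i, rfl⟩
    choose n hn using fun k => hden l k i
    refine ⟨n, ?_⟩
    ext k
    show (algebraMap O el1_K D)⁻¹ * algebraMap O el1_K (n k) = _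
    rw [← hn k, ← mul_assoc, inv_mul_cancel₀ hD', one_mul]
    simp [Matrix.mulVec_single]
  have hfg : L.FG := by
    have hN : IsNoetherian O (LinearMap.range φ) := inferInstance
    have h1 : (L.comap (LinearMap.range φ).subtype).FG := hN.noetherian _
    have h2 : L = (L.comap (LinearMap.range φ).subtype).map (LinearMap.range φ).subtype := by
      rw [Submodule.map_comap_eq, Submodule.range_subtype, inf_eq_right.mpr hLφ]
    rw [h2]
    exact h1.map _
  have hfin : Module.Finite O L := Module.Finite.iff_fg.mpr hfg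
  have hfree : Module.Free O L := inferInstance
  let b := Module.Free.chooseBasis O L
  let w : Module.Free.ChooseBasisIndex O L → (Fin 2 → el1_K) := fun i => (b i : Fin 2 → el1_K)
  have hw1 : LinearIndependent O w := b.linearIndependent.map' L.subtype L.ker_subtype
  have hw2 : LinearIndependent el1_K w := (LinearIndependent.iff_fractionRing O el1_K).mp hw1
  have hspO : ∀ v ∈ L, ∃ m : Module.Free.ChooseBasisIndex O L → O,
      v = ∑ i, algebraMap O el1_K (m i) • w i := by
    intro v hv
    refine ⟨b.repr ⟨v, hv⟩, ?_⟩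
    have h1 := b.sum_repr ⟨v, hv⟩
    have h2 := congrArg (fun x : L => (x : Fin 2 → el1_K)) h1
    simp only [Submodule.coe_sum, Submodule.coe_smul] at h2
    refine h2.symm.trans (Finset.sum_congr rfl fun i _ => ?_)
    exact (algebraMap_smul _ _ _).symm
  have hS : ∀ l i, (ρ l).val.mulVec (Pi.single i 1) ∈ L := fun l i =>
    Submodule.subset_span ⟨l, i, rfl⟩
  have hsp : ⊤ ≤ Submodule.span el1_K (Set.range w) := by
    have h1 : ∀ i : Fin 2, (Pi.single i 1 : Fin 2 → el1_K) ∈ Submodule.span el1_K (Set.range w) := by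
      intro i
      have h2 := hS 1 i
      rw [map_one, Matrix.SpecialLinearGroup.coe_one, Matrix.one_mulVec] at h2
      obtain ⟨m, hm⟩ := hspO _ h2
      rw [hm]
      exact Submodule.sum_mem _ fun j _ => Submodule.smul_mem _ _ (Submodule.subset_span ⟨j, rfl⟩)
    intro v _
    have h2 : v = ∑ i, v i • (Pi.single i 1 : Fin 2 → el1_K) := by
      ext k
      simp [Pi.single_apply]
    rw [h2]
    exact Submodule.sum_mem _ fun j _ => Submodule.smul_mem _ _ (h1 j)
  let bK : Module.Basis (Module.Free.ChooseBasisIndex O L) el1_K (Fin 2 → el1_K) :=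
    Module.Basis.mk hw2 hsp
  have hcard : Fintype.card (Module.Free.ChooseBasisIndex O L) = Fintype.card (Fin 2) := by
    rw [← Module.finrank_eq_card_basis bK]; simp
  let e : Fin 2 ≃ Module.Free.ChooseBasisIndex O L := (Fintype.equivOfCardEq hcard).symm
  -- stability
  have hst : ∀ l, ∀ v ∈ L, (ρ l).val.mulVec v ∈ L := by
    intro l v hv
    induction hv using Submodule.span_induction with
    | mem v hv =>
      obtain ⟨l', i, rfl⟩ := hv
      rw [Matrix.mulVec_mulVec, ← Matrix.SpecialLinearGroup.coe_mul, ← map_mul]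
      exact hS _ _
    | zero => rw [Matrix.mulVec_zero]; exact L.zero_mem
    | add x y _ _ hx hy => rw [Matrix.mulVec_add]; exact L.add_mem hx hy
    | smul a x _ hx =>
      rw [Matrix.mulVec_smul]; exact L.smul_mem a hx
  refine ⟨Matrix.of fun i k => w (e k) i, ?_, ?_⟩
  · have h1 : LinearIndependent el1_K (fun k => w (e k)) := hw2.comp e e.injective
    have h2 : LinearIndependent el1_K (Matrix.of fun k i => w (e k) i).row := h1
    rw [Matrix.linearIndependent_rows_iff_isUnit, Matrix.isUnit_iff_isUnit_det] at h2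
    rw [← Matrix.det_transpose]
    exact h2.ne_zero
  · intro l
    choose m hm using fun k : Fin 2 => hspO _ (hst l (w (e k)) (b (e k)).2)
    refine ⟨Matrix.of fun i k => m k (e i), ?_⟩
    ext i k
    have h1 := congrFun (hm k) i
    rw [Finset.sum_apply, ← Equiv.sum_comp e] at h1
    rw [Matrix.mul_apply, Matrix.mul_apply]
    simp only [Matrix.mulVec, dotProduct, Pi.smul_apply, smul_eq_mul] at h1
    simp only [Matrix.of_apply, Matrix.map_apply]
    rw [h1]
    exact Finset.sum_congr rfl fun x _ => mul_comm _ _

end Pool.Agent.F8
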