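import Pool.Agent.Lib.MP_305fdd_al.F8.StmE

/-!
# Figure-eight knot group, block E, piece El2
-/

set_option autoImplicit false

namespace Pool.Agent.F8

theorem p_El2 : S_El2 := by
  intro Λ _ ρ B hB hM
  choose M hM using hM
  have hu : IsUnit B.det := isUnit_iff_ne_zero.mpr hB
  let f : Matrix (Fin 2) (Fin 2) O →+* Matrix (Fin 2) (Fin 2) (FractionRing O) :=
    (algebraMap O (FractionRing O)).mapMatrix
  have hf : Function.Injective f :=
    Matrix.map_injective (IsFractionRing.injective O (FractionRing O))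
  have hfM : ∀ l, (ρ l).val * B = B * f (M l) := hM
  have e : ∀ l, f (M l) = B⁻¹ * (ρ l).val * B := by
    intro l
    rw [Matrix.mul_assoc, hfM, ← Matrix.mul_assoc, Matrix.nonsing_inv_mul _ hu, Matrix.one_mul]
  have hdet : ∀ l, (M l).det = 1 := by
    intro l
    apply IsFractionRing.injective O (FractionRing O)
    have h1 : (f (M l)).det = algebraMap O (FractionRing O) (M l).det :=
      (RingHom.map_det (algebraMap O (FractionRing O)) (M l)).symm
    rw [← h1, e, Matrix.det_mul, Matrix.det_mul, (ρ l).property, mul_one, ← Matrix.det_mul,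
      Matrix.nonsing_inv_mul _ hu, Matrix.det_one, map_one]
  refine ⟨⟨⟨fun l => ⟨M l, hdet l⟩, ?_⟩, ?_⟩, ?_⟩
  · apply Subtype.ext
    apply hf
    show f (M 1) = f 1
    rw [e, map_one, map_one]
    show B⁻¹ * 1 * B = 1
    rw [Matrix.mul_one, Matrix.nonsing_inv_mul _ hu]
  · intro x y
    apply Subtype.ext
    apply hf
    show f (M (x * y)) = f (M x * M y)
    rw [map_mul, e, e, e, map_mul]
    show B⁻¹ * ((ρ x).val * (ρ y).val) * B = _
    have : B⁻¹ * (ρ x).val * B * (B⁻¹ * (ρ y).val * B) =
        B⁻¹ * (ρ x).val * (B * B⁻¹) * (ρ y).val * B := by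
      simp only [Matrix.mul_assoc]
    rw [this, Matrix.mul_nonsing_inv _ hu]
    simp only [Matrix.mul_assoc, Matrix.one_mul]
  · intro l
    show algebraMap O (FractionRing O) (M l).trace = (ρ l).val.trace
    have h1 : (f (M l)).trace = algebraMap O (FractionRing O) (M l).trace := by
      rw [Matrix.trace_fin_two, Matrix.trace_fin_two, map_add]
      rfl
    rw [← h1, e, Matrix.trace_mul_comm, ← Matrix.mul_assoc, Matrix.mul_nonsing_inv _ hu,
      Matrix.one_mul]

end Pool.Agent.F8
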