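import Pool.Agent.Lib.MP_305fdd_al.F8.StmE

/-!
# Figure-eight knot group, block E: local solvability (piece Els)
-/

set_option autoImplicit false

namespace Pool.Agent.F8

private theorem els_inv {σ : O →+* O} (hσ : SG σ) (x : O) : σ (σ x) = x := by
  rcases hσ with rfl | rfl
  · rfl
  · exact star_star x

private theorem els_dvd {σ : O →+* O} (hσ : SG σ) {x y : O} (h : x ∣ σ y) : σ x ∣ y := by
  have := map_dvd σ h
  rwa [els_inv hσ] at this

private theorem els_nat {σ : O →+* O} {n : ℕ} {y : O} (hσ : SG σ) (h : (n : O) ∣ y) :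
    (n : O) ∣ σ y := by
  have := map_dvd σ h
  rwa [map_natCast] at this

theorem p_Els (h1 : S_Eid) (h2 : S_Ekr) (h3 : S_Epr) : S_Els := by
  intro Λ _ T hL g h ha π hπ h2π
  obtain ⟨p, hp, hp2, hπp⟩ := h3 π hπ h2π
  obtain ⟨m', hm'⟩ : FiniteMultiplicity π (T g ^ 2 - 4) := FiniteMultiplicity.of_prime_left hπ ha
  obtain ⟨m, hm⟩ : ∃ m : ℕ, ¬ π ^ m ∣ T g ^ 2 - 4 := ⟨m' + 1, hm'⟩
  refine ⟨m, fun K => ?_⟩
  obtain ⟨k, hk⟩ : ∃ k : ℕ, k = max K (2 * m) := ⟨_, rfl⟩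
  obtain ⟨σ, hσ, r, hr⟩ := hL p hp hp2 k
  have hker := (h2 (p ^ k)).1
  have hsur := (h2 (p ^ k)).2
  have hpk : π ^ k ∣ ((p ^ k : ℕ) : O) := by
    rw [Nat.cast_pow]
    exact pow_dvd_pow_of_dvd hπp k
  have hK : π ^ K ∣ ((p ^ k : ℕ) : O) :=
    (pow_dvd_pow π (by rw [hk]; exact le_max_left _ _)).trans hpk
  have h2m : π ^ (2 * m) ∣ ((p ^ k : ℕ) : O) :=
    (pow_dvd_pow π (by rw [hk]; exact le_max_right _ _)).trans hpk
  have eA : tr (r g) ^ 2 - 4 = rd (p ^ k) (σ (T g ^ 2 - 4)) := by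
    rw [hr, map_sub, map_sub, map_pow, map_pow, map_ofNat, map_ofNat]
  have eB : tr (r g * r h * (r g)⁻¹ * (r h)⁻¹) - 2 =
      rd (p ^ k) (σ (T (g * h * g⁻¹ * h⁻¹) - 2)) := by
    rw [← map_inv, ← map_inv, ← map_mul, ← map_mul, ← map_mul, hr, map_sub, map_sub, map_ofNat,
      map_ofNat]
  obtain ⟨c00, hc00⟩ := hsur ((r g).val 0 0)
  obtain ⟨c01, hc01⟩ := hsur ((r g).val 0 1)
  obtain ⟨c10, hc10⟩ := hsur ((r g).val 1 0)
  obtain ⟨c11, hc11⟩ := hsur ((r g).val 1 1)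
  by_contra hcon
  have hcon' : ∀ x y z : O, π ^ K ∣ (T g ^ 2 - 4) * x ^ 2 + (T (g * h * g⁻¹ * h⁻¹) - 2) * y ^ 2 -
      z ^ 2 → π ^ m ∣ y := by
    intro x y z hxyz
    by_contra hy
    exact hcon ⟨x, y, z, hxyz, fun hh => hy hh.2.1⟩
  have key : ∀ y : O, (∃ x z : Es (ZMod (p ^ k)), (tr (r g) ^ 2 - 4) * x ^ 2 +
      (tr (r g * r h * (r g)⁻¹ * (r h)⁻¹) - 2) * (rd (p ^ k) y) ^ 2 = z ^ 2) → π ^ m ∣ σ y := by
    rintro y ⟨x, z, hxz⟩
    obtain ⟨X, rfl⟩ := hsur x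
    obtain ⟨Z, rfl⟩ := hsur z
    rw [eA, eB, ← map_pow, ← map_pow, ← map_pow, ← map_mul, ← map_mul, ← map_add, ← sub_eq_zero,
      ← map_sub, hker] at hxz
    have h5 := els_nat hσ hxz
    rw [map_sub, map_add, map_mul, map_mul, map_pow, map_pow, map_pow, els_inv hσ,
      els_inv hσ] at h5
    exact hcon' _ _ _ (hK.trans h5)
  obtain ⟨i1, i2, i3⟩ := h1 _ (r g) (r h)
  have j1 := key (2 * c10) (by
    rw [map_mul, map_ofNat, hc10]; exact i1)
  have j2 := key (2 * c01) (by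
    rw [map_mul, map_ofNat, hc01]; exact i2)
  have j3 := key (2 * c10 - 2 * (c00 - c11) - 2 * c01) (by
    rw [map_sub, map_sub, map_mul, map_mul, map_mul, map_sub, map_ofNat, hc10, hc01, hc00, hc11]
    exact i3)
  rw [map_mul, map_ofNat] at j1 j2
  rw [map_sub, map_sub, map_mul, map_mul, map_mul, map_ofNat] at j3
  have j4 : π ^ m ∣ 2 * σ (c00 - c11) := by
    have := (j1.sub j2).sub j3
    convert this using 1
    ring
  have k1 := hπ.pow_dvd_of_dvd_mul_left m h2π j1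
  have k2 := hπ.pow_dvd_of_dvd_mul_left m h2π j2
  have k3 := hπ.pow_dvd_of_dvd_mul_left m h2π j4
  have hdet : (r g).val 0 0 * (r g).val 1 1 - (r g).val 0 1 * (r g).val 1 0 = 1 := by
    rw [← Matrix.det_fin_two]; exact (r g).2
  have e5 : rd (p ^ k) (σ (T g ^ 2 - 4) - ((c00 - c11) ^ 2 + 4 * c01 * c10)) = 0 := by
    rw [map_sub, ← eA, map_add, map_pow, map_sub, map_mul, map_mul, map_ofNat, hc00, hc11, hc01,
      hc10, tr_eq]
    linear_combination 4 * hdet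
  rw [hker] at e5
  have e6 := els_nat hσ e5
  rw [map_sub, els_inv hσ, map_add, map_pow, map_mul, map_mul, map_ofNat] at e6
  have e7 : π ^ (2 * m) ∣ σ (c00 - c11) ^ 2 + 4 * σ c01 * σ c10 := by
    apply dvd_add
    · rw [mul_comm 2 m, pow_mul]
      exact pow_dvd_pow_of_dvd k3 2
    · rw [two_mul, pow_add, mul_assoc]
      exact (mul_dvd_mul k2 k1).mul_left 4
  have e8 : π ^ (2 * m) ∣ T g ^ 2 - 4 := by
    have := (h2m.trans e6).add e7
    rwa [sub_add_cancel] at this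
  exact hm ((pow_dvd_pow π (by omega)).trans e8)

end Pool.Agent.F8
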