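import Pool.Agent.Lib.MP_305fdd_al.F8.StmE

/-!
# Figure-eight knot group, block E: primes of `O` divide prime numbers
-/

set_option autoImplicit false

namespace Pool.Agent.F8

private theorem epr_nat (π : O) (hπ : Prime π) (n : ℕ) :
    n ≠ 0 → π ∣ (n : O) → ∃ p : ℕ, p.Prime ∧ π ∣ (p : O) := by
  induction n using Nat.recOnMul with
  | zero => exact fun h => absurd rfl h
  | one =>
    intro _ h
    rw [Nat.cast_one] at h
    exact absurd (isUnit_of_dvd_one h) hπ.not_isUnit
  | prime p hp => exact fun _ h => ⟨p, hp, h⟩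
  | mul a b ha hb =>
    intro hab h
    rw [Nat.cast_mul] at h
    rcases hπ.dvd_or_dvd h with h | h
    · exact ha (fun h0 => hab (by rw [h0, zero_mul])) h
    · exact hb (fun h0 => hab (by rw [h0, mul_zero])) h

theorem p_Epr : S_Epr := by
  intro π hπ h2
  have h1 : π ∣ ((nn π : ℕ) : O) := by
    have := mul_star_nn π
    rw [Int.cast_natCast] at this
    rw [← this]
    exact Dvd.intro _ rfl
  obtain ⟨p, hp, hd⟩ := epr_nat π hπ (nn π) (fun h => hπ.ne_zero (nn_eq_zero.1 h)) h1
  refine ⟨p, hp, ?_, hd⟩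
  rintro rfl
  exact h2 (by simpa using hd)

end Pool.Agent.F8
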