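import Pool.Agent.Lib.MP_305fdd_al.F8.StmE

/-!
# Figure-eight knot group, block E, piece Esp
-/

set_option autoImplicit false

namespace Pool.Agent.F8

/-- the quaternion product -/
def esp_m {R : Type} [CommRing R] (α β : R) (q r : Fin 4 → R) : Fin 4 → R :=
  ![q 0 * r 0 + α * (q 1 * r 1) + β * (q 2 * r 2) - α * β * (q 3 * r 3),
    q 0 * r 1 + q 1 * r 0 - β * (q 2 * r 3) + β * (q 3 * r 2),
    q 0 * r 2 + q 2 * r 0 + α * (q 1 * r 3) - α * (q 3 * r 1),
    q 0 * r 3 + q 3 * r 0 + q 1 * r 2 - q 2 * r 1]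

/-- the matrix with coordinates `q` -/
def esp_A {R : Type} [CommRing R] (I J : Matrix (Fin 2) (Fin 2) R) (q : Fin 4 → R) :
    Matrix (Fin 2) (Fin 2) R :=
  q 0 • (1 : Matrix (Fin 2) (Fin 2) R) + q 1 • I + q 2 • J + q 3 • (I * J)

section

variable {R : Type} [CommRing R] {α β : R} {I J : Matrix (Fin 2) (Fin 2) R}

theorem esp_mul (hI : I * I = α • (1 : Matrix (Fin 2) (Fin 2) R))
    (hJ : J * J = β • (1 : Matrix (Fin 2) (Fin 2) R)) (hIJ : I * J = -(J * I)) (q r : Fin 4 → R) :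
    esp_A I J q * esp_A I J r = esp_A I J (esp_m α β q r) := by
  have e1 : J * I = -(I * J) := by rw [hIJ, neg_neg]
  have e2 : I * (I * J) = α • J := by rw [← mul_assoc, hI, smul_mul_assoc, one_mul]
  have e3 : (I * J) * J = β • I := by rw [mul_assoc, hJ, mul_smul_comm, mul_one]
  have e4 : J * (I * J) = -(β • I) := by rw [← mul_assoc, e1, neg_mul, e3]
  have e5 : (I * J) * I = -(α • J) := by rw [mul_assoc, e1, mul_neg, e2]
  have e6 : (I * J) * (I * J) = -((α * β) • (1 : Matrix (Fin 2) (Fin 2) R)) := by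
    rw [mul_assoc, e4, mul_neg, mul_smul_comm, hI, smul_smul, mul_comm β α]
  unfold esp_A
  simp only [add_mul, mul_add, smul_mul_assoc, mul_smul_comm, one_mul, mul_one, e1, e2, e3, e4,
    e5, e6, hI, hJ, smul_smul, smul_neg, esp_m, Matrix.cons_val]
  module

theorem esp_tr (h2 : ∀ x : R, x + x = 0 → x = 0) (hIJ : I * J = -(J * I)) (tI : I.trace = 0)
    (tJ : J.trace = 0) (q : Fin 4 → R) : (esp_A I J q).trace = q 0 + q 0 := by
  have h : (I * J).trace = 0 := by
    apply h2
    have h3 : (I * J).trace = -(I * J).trace := by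
      conv_lhs => rw [hIJ, Matrix.trace_neg, Matrix.trace_mul_comm]
    linear_combination h3
  unfold esp_A
  rw [Matrix.trace_add, Matrix.trace_add, Matrix.trace_add, Matrix.trace_smul, Matrix.trace_smul,
    Matrix.trace_smul, Matrix.trace_smul, tI, tJ, h, Matrix.trace_fin_two]
  simp; ring

/-- the norm -/
def esp_N (α β : R) (q : Fin 4 → R) : R :=
  q 0 * q 0 - α * (q 1 * q 1) - β * (q 2 * q 2) + α * β * (q 3 * q 3)

theorem esp_det (h2 : ∀ x : R, x + x = 0 → x = 0)
    (hI : I * I = α • (1 : Matrix (Fin 2) (Fin 2) R))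
    (hJ : J * J = β • (1 : Matrix (Fin 2) (Fin 2) R)) (hIJ : I * J = -(J * I)) (tI : I.trace = 0)
    (tJ : J.trace = 0) (q : Fin 4 → R) : (esp_A I J q).det = esp_N α β q := by
  have h1 : (esp_A I J q).adjugate = esp_A I J ![q 0, -q 1, -q 2, -q 3] := by
    have h3 : (esp_A I J q).adjugate =
        (esp_A I J q).trace • (1 : Matrix (Fin 2) (Fin 2) R) - esp_A I J q := by
      rw [Matrix.adjugate_fin_two, Matrix.trace_fin_two]
      ext i j
      fin_cases i <;> fin_cases j <;> simp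
    rw [h3, esp_tr h2 hIJ tI tJ]
    unfold esp_A
    simp only [Matrix.cons_val]
    module
  have h4 := Matrix.mul_adjugate (esp_A I J q)
  rw [h1, esp_mul hI hJ hIJ] at h4
  have h5 : esp_A I J (esp_m α β q ![q 0, -q 1, -q 2, -q 3]) =
      esp_N α β q • (1 : Matrix (Fin 2) (Fin 2) R) := by
    unfold esp_A esp_m esp_N
    simp only [Matrix.cons_val]
    module
  rw [h5] at h4
  have h6 := congrFun (congrFun h4 0) 0
  simpa using h6.symm

end

theorem esp_ind {F : Type} [Field F] (h2 : (2 : F) ≠ 0) {α β : F}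
    {I J : Matrix (Fin 2) (Fin 2) F} (hα : α ≠ 0) (hβ : β ≠ 0)
    (hI : I * I = α • (1 : Matrix (Fin 2) (Fin 2) F))
    (hJ : J * J = β • (1 : Matrix (Fin 2) (Fin 2) F)) (hIJ : I * J = -(J * I)) (tI : I.trace = 0)
    (tJ : J.trace = 0) (q : Fin 4 → F) (hq : esp_A I J q = 0) : ∀ i, q i = 0 := by
  have h2' : ∀ x : F, x + x = 0 → x = 0 := by
    intro x hx
    rw [← two_mul] at hx
    exact (mul_eq_zero.mp hx).resolve_left h2
  have key : ∀ r : Fin 4 → F, esp_m α β q r 0 = 0 := by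
    intro r
    apply h2'
    rw [← esp_tr h2' hIJ tI tJ, ← esp_mul hI hJ hIJ, hq, zero_mul, Matrix.trace_zero]
  have k0 := key ![1, 0, 0, 0]
  have k1 := key ![0, 1, 0, 0]
  have k2 := key ![0, 0, 1, 0]
  have k3 := key ![0, 0, 0, 1]
  unfold esp_m at k0 k1 k2 k3
  simp at k0 k1 k2 k3
  intro i
  fin_cases i
  · exact k0
  · exact k1.resolve_left hα
  · exact k2.resolve_left hβ
  · rcases k3 with (h | h) | h
    · exact absurd h hα
    · exact absurd h hβ
    · exact h

theorem esp_inj {F : Type} [Field F] (h2 : (2 : F) ≠ 0) {α β : F}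
    {I J : Matrix (Fin 2) (Fin 2) F} (hα : α ≠ 0) (hβ : β ≠ 0)
    (hI : I * I = α • (1 : Matrix (Fin 2) (Fin 2) F))
    (hJ : J * J = β • (1 : Matrix (Fin 2) (Fin 2) F)) (hIJ : I * J = -(J * I)) (tI : I.trace = 0)
    (tJ : J.trace = 0) (q r : Fin 4 → F) (hq : esp_A I J q = esp_A I J r) : q = r := by
  have h := esp_ind h2 hα hβ hI hJ hIJ tI tJ (q - r) (by
    have : esp_A I J (q - r) = esp_A I J q - esp_A I J r := by
      unfold esp_A
      simp only [Pi.sub_apply]
      module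
    rw [this, hq, sub_self])
  funext i
  exact sub_eq_zero.mp (h i)

theorem p_Esp : S_Esp := by
  intro K Om Λ _ _ _ _ j s α β I J I' J' c hα hβ hI hJ hIJ tI tJ hI' hJ' hIJ' tI' tJ' hs
  have hj : Function.Injective j := j.injective
  have jα : j α ≠ 0 := by rw [Ne, map_eq_zero]; exact hα
  have jβ : j β ≠ 0 := by rw [Ne, map_eq_zero]; exact hβ
  have h2O : (2 : Om) ≠ 0 := two_ne_zero
  have h2K : (2 : K) ≠ 0 := by
    intro h
    apply h2O
    rw [← map_ofNat j 2, h, map_zero]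
  have h2O' : ∀ x : Om, x + x = 0 → x = 0 := fun x hx => by
    rw [← two_mul] at hx
    exact (mul_eq_zero.mp hx).resolve_left h2O
  have h2K' : ∀ x : K, x + x = 0 → x = 0 := fun x hx => by
    rw [← two_mul] at hx
    exact (mul_eq_zero.mp hx).resolve_left h2K
  have hs' : ∀ l, (s l).val = esp_A I J (fun i => j (c l i)) := hs
  have jm : ∀ q r : Fin 4 → K, (fun i => j (esp_m α β q r i)) =
      esp_m (j α) (j β) (fun i => j (q i)) (fun i => j (r i)) := by
    intro q r
    funext i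
    unfold esp_m
    fin_cases i <;> simp
  have cm : ∀ l l', c (l * l') = esp_m α β (c l) (c l') := by
    intro l l'
    have h : (fun i => j (c (l * l') i)) = fun i => j (esp_m α β (c l) (c l') i) := by
      apply esp_inj h2O jα jβ hI hJ hIJ tI tJ
      rw [← hs', map_mul, jm, ← esp_mul hI hJ hIJ, ← hs', ← hs']
      rfl
    funext i
    exact hj (congrFun h i)
  have c1 : c 1 = ![1, 0, 0, 0] := by
    have h : (fun i => j (c 1 i)) = ![1, 0, 0, 0] := by
      apply esp_inj h2O jα jβ hI hJ hIJ tI tJ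
      rw [← hs', map_one]
      unfold esp_A
      simp
    funext i
    apply hj
    rw [congrFun h i]
    fin_cases i <;> simp
  have hdet : ∀ l, (esp_A I' J' (c l)).det = 1 := by
    intro l
    rw [esp_det h2K' hI' hJ' hIJ' tI' tJ']
    apply hj
    rw [map_one, ← (s l).property, hs', esp_det h2O' hI hJ hIJ tI tJ]
    unfold esp_N
    simp
  refine ⟨⟨⟨fun l => ⟨esp_A I' J' (c l), hdet l⟩, ?_⟩, ?_⟩, fun l => rfl⟩
  · apply Subtype.ext
    show esp_A I' J' (c 1) = 1
    rw [c1]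
    unfold esp_A
    simp
  · intro x y
    apply Subtype.ext
    show esp_A I' J' (c (x * y)) = esp_A I' J' (c x) * esp_A I' J' (c y)
    rw [cm, esp_mul hI' hJ' hIJ']

end Pool.Agent.F8
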