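import Pool.Agent.Lib.MP_305fdd_al.F8.StmE

/-!
# Figure-eight knot group, block E: piece Esx
-/

set_option autoImplicit false

namespace Pool.Agent.F8

private lemma esx_bdd (E : Fin 4 → Matrix (Fin 2) (Fin 2) (FractionRing O)) :
    ∃ D : O, D ≠ 0 ∧ ∀ m i k, ∃ n : O,
      algebraMap O (FractionRing O) D * E m i k = algebraMap O (FractionRing O) n := by
  obtain ⟨b, hb⟩ := IsLocalization.exist_integer_multiples_of_finite (nonZeroDivisors O)
    (fun p : Fin 4 × Fin 2 × Fin 2 => E p.1 p.2.1 p.2.2)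
  refine ⟨b, nonZeroDivisors.ne_zero b.2, fun m i k => ?_⟩
  obtain ⟨n, hn⟩ := hb (m, i, k)
  refine ⟨n, ?_⟩
  rw [hn, Algebra.smul_def]

private lemma esx_two : (2 : O) ≠ 0 := by
  intro h
  have := congrArg nn h
  rw [nn_zero] at this
  exact absurd this (by decide)

private lemma esx_j2 {R : Type} [CommRing R] (j : O →+* R) : j 2 = 2 := by
  have e : (2 : O) = 1 + 1 := by ext <;> rfl
  rw [e, map_add, map_one]
  norm_num

private lemma esx_j4 {R : Type} [CommRing R] (j : O →+* R) : j 4 = 4 := by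
  have e : (4 : O) = 1 + 1 + 1 + 1 := by ext <;> rfl
  rw [e, map_add, map_add, map_add, map_one]
  norm_num

private lemma esx_lin {Om : Type} [Field Om] (X U I J W : Matrix (Fin 2) (Fin 2) Om)
    (N n0 n1 n2 n3 : Om) (hN : N ≠ 0) (h : N • X = n0 • U + n1 • I + n2 • J - n3 • W) :
    X = (N⁻¹ * n0) • U + (N⁻¹ * n1) • I + (N⁻¹ * n2) • J + (N⁻¹ * -n3) • W := by
  have e : X = N⁻¹ • (N • X) := by rw [smul_smul, inv_mul_cancel₀ hN, one_smul]
  rw [e, h]
  module

/-- the coordinates of `s l`, multiplied by `2 α β` -/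
private def esx_n {Λ : Type} [Group Λ] (T : Λ → O) (g h : Λ) (a b : O) (l : Λ) : Fin 4 → O :=
  ![a * b * T l, b * (2 * T (l * g) - T g * T l), a * (T (l * g * h) - T (l * h * g)),
    -(2 * T (l * g * g * h) - 2 * T (l * g * h * g) - T g * T (l * g * h) + T g * T (l * h * g))]

private lemma esx_n0 {Λ : Type} [Group Λ] (T : Λ → O) (g h : Λ) (a b : O) (l : Λ) :
    esx_n T g h a b l 0 = a * b * T l := rfl

private lemma esx_n1 {Λ : Type} [Group Λ] (T : Λ → O) (g h : Λ) (a b : O) (l : Λ) :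
    esx_n T g h a b l 1 = b * (2 * T (l * g) - T g * T l) := rfl

private lemma esx_n2 {Λ : Type} [Group Λ] (T : Λ → O) (g h : Λ) (a b : O) (l : Λ) :
    esx_n T g h a b l 2 = a * (T (l * g * h) - T (l * h * g)) := rfl

private lemma esx_n3 {Λ : Type} [Group Λ] (T : Λ → O) (g h : Λ) (a b : O) (l : Λ) :
    esx_n T g h a b l 3 = -(2 * T (l * g * g * h) - 2 * T (l * g * h * g) -
      T g * T (l * g * h) + T g * T (l * h * g)) := rfl

theorem p_Esx (h1 : S_Edc) (h2 : S_Ect) (h3 : S_Esp) : S_Esx := by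
  intro Λ Om _ _ _ j hj s T hT g h
  generalize hadef : T g ^ 2 - 4 = a
  generalize hbdef : T (g * h * g⁻¹ * h⁻¹) - 2 = b
  intro ha hb hS
  have hι : Function.Injective (algebraMap O (FractionRing O)) := IsFractionRing.injective O _
  obtain ⟨j', hj'⟩ : ∃ j' : FractionRing O →+* Om, ∀ x : O,
      j' (algebraMap O (FractionRing O) x) = j x :=
    ⟨IsFractionRing.lift hj, fun x => IsFractionRing.lift_algebraMap hj x⟩
  have h2ab : 2 * a * b ≠ 0 := mul_ne_zero (mul_ne_zero esx_two ha) hb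
  have hD0 : algebraMap O (FractionRing O) (2 * a * b) ≠ 0 :=
    fun e => h2ab (hι (by rw [e, map_zero]))
  have hj0 : j (2 * a * b) ≠ 0 := fun e => h2ab (hj (by rw [e, map_zero]))
  have h2K : (2 : FractionRing O) ≠ 0 := by
    intro e
    apply hD0
    rw [map_mul, map_mul, esx_j2, e, zero_mul, zero_mul]
  -- the relations over Om
  obtain ⟨e1, e2, e3, e4, e5, e6⟩ := h1 Om (s g) (s h)
  have f1 : tr (s g) ^ 2 - 4 = j a := by rw [hT, ← hadef, map_sub, map_pow, esx_j4]
  have f2 : tr (s g * s h * (s g)⁻¹ * (s h)⁻¹) - 2 = j b := by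
    rw [← map_inv, ← map_inv, ← map_mul, ← map_mul, ← map_mul, hT, ← hbdef, map_sub, esx_j2]
  rw [f1] at e1
  rw [f2] at e2
  simp only [f1, f2] at e6
  -- the coordinates
  let c : Λ → Fin 4 → FractionRing O := fun l m =>
    algebraMap O (FractionRing O) (esx_n T g h a b l m) /
      algebraMap O (FractionRing O) (2 * a * b)
  have hc : ∀ l m, c l m * algebraMap O (FractionRing O) (2 * a * b) =
      algebraMap O (FractionRing O) (esx_n T g h a b l m) := fun l m => div_mul_cancel₀ _ hD0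
  have hjc : ∀ l m, j' (c l m) = (j (2 * a * b))⁻¹ * j (esx_n T g h a b l m) := by
    intro l m
    rw [show c l m = algebraMap O (FractionRing O) (esx_n T g h a b l m) /
      algebraMap O (FractionRing O) (2 * a * b) from rfl, map_div₀, hj', hj', div_eq_mul_inv,
      mul_comm]
  -- the solution in K
  obtain ⟨x, y, z, hxyz, hsol⟩ := hS
  obtain ⟨I', J', i1, i2, i3, i4, i5⟩ := h2 (FractionRing O)
    (algebraMap O (FractionRing O) a) (algebraMap O (FractionRing O) b)
    (algebraMap O (FractionRing O) x) (algebraMap O (FractionRing O) y)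
    (algebraMap O (FractionRing O) z)
    (fun e => hxyz ⟨hι (by rw [e.1, map_zero]), hι (by rw [e.2.1, map_zero]),
      hι (by rw [e.2.2, map_zero])⟩)
    (by rw [← map_pow, ← map_pow, ← map_pow, ← map_mul, ← map_mul, ← map_add, hsol])
  obtain ⟨ρ, hρ⟩ := h3 (FractionRing O) Om Λ j' s
    (algebraMap O (FractionRing O) a) (algebraMap O (FractionRing O) b)
    (qI (s g)) (qJ (s g) (s h)) I' J' c
    (fun e => ha (hι (by rw [e, map_zero]))) (fun e => hb (hι (by rw [e, map_zero])))
    (by rw [hj']; exact e1) (by rw [hj']; exact e2) e3 e4 e5 i1 i2 i3 i4 i5 (by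
      intro l
      have k1 : j (2 * a * b) = 2 * j a * j b := by rw [map_mul, map_mul, esx_j2]
      have k := esx_lin _ _ _ _ _ _ _ _ _ _ (by rw [← k1]; exact hj0) (e6 (s l))
      have q0 : (2 * j a * j b)⁻¹ * (j a * j b * tr (s l)) = j' (c l 0) := by
        rw [hjc, hT, k1, esx_n0, map_mul, map_mul]
      have q1 : (2 * j a * j b)⁻¹ * (j b * (2 * tr (s l * s g) - tr (s g) * tr (s l))) =
          j' (c l 1) := by
        rw [hjc, ← map_mul, hT, hT, hT, k1, esx_n1, map_mul, map_sub, map_mul, map_mul, esx_j2]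
      have q2 : (2 * j a * j b)⁻¹ * (j a * (tr (s l * s g * s h) - tr (s l * s h * s g))) =
          j' (c l 2) := by
        rw [hjc, ← map_mul, ← map_mul, ← map_mul, ← map_mul, hT, hT, k1, esx_n2, map_mul,
          map_sub]
      have q3 : (2 * j a * j b)⁻¹ * -(2 * tr (s l * s g * s g * s h) -
          2 * tr (s l * s g * s h * s g) - tr (s g) * tr (s l * s g * s h) +
          tr (s g) * tr (s l * s h * s g)) = j' (c l 3) := by
        rw [hjc, k1]
        simp only [← map_mul s, hT]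
        simp only [esx_n3, esx_j2, map_neg, map_add, map_sub, map_mul]
      rw [q0, q1, q2, q3] at k
      exact k)
  refine ⟨ρ, ?_, ?_⟩
  · obtain ⟨D, hD, hE⟩ := esx_bdd ![1, I', J', I' * J']
    refine ⟨2 * a * b * D, mul_ne_zero h2ab hD, fun l i k => ?_⟩
    obtain ⟨n0, m0⟩ := hE 0 i k
    obtain ⟨n1, m1⟩ := hE 1 i k
    obtain ⟨n2, m2⟩ := hE 2 i k
    obtain ⟨n3, m3⟩ := hE 3 i k
    rw [show (![1, I', J', I' * J'] : Fin 4 → Matrix (Fin 2) (Fin 2) (FractionRing O)) 0 = 1
      from rfl] at m0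
    rw [show (![1, I', J', I' * J'] : Fin 4 → Matrix (Fin 2) (Fin 2) (FractionRing O)) 1 = I'
      from rfl] at m1
    rw [show (![1, I', J', I' * J'] : Fin 4 → Matrix (Fin 2) (Fin 2) (FractionRing O)) 2 = J'
      from rfl] at m2
    rw [show (![1, I', J', I' * J'] : Fin 4 → Matrix (Fin 2) (Fin 2) (FractionRing O)) 3 =
      I' * J' from rfl] at m3
    refine ⟨esx_n T g h a b l 0 * n0 + esx_n T g h a b l 1 * n1 + esx_n T g h a b l 2 * n2 +
      esx_n T g h a b l 3 * n3, ?_⟩
    rw [map_add, map_add, map_add, map_mul _ (esx_n T g h a b l 0),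
      map_mul _ (esx_n T g h a b l 1), map_mul _ (esx_n T g h a b l 2),
      map_mul _ (esx_n T g h a b l 3), ← hc, ← hc, ← hc, ← hc, ← m0, ← m1, ← m2, ← m3, hρ,
      map_mul _ _ D, Matrix.add_apply, Matrix.add_apply, Matrix.add_apply, Matrix.smul_apply,
      Matrix.smul_apply, Matrix.smul_apply, Matrix.smul_apply, smul_eq_mul, smul_eq_mul,
      smul_eq_mul, smul_eq_mul]
    ring
  · intro l
    have t0 : (I' * J').trace = 0 := by
      have t1 : (I' * J').trace = -(I' * J').trace := by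
        conv_lhs => rw [i3, Matrix.trace_neg, Matrix.trace_mul_comm]
      have t2 : 2 * (I' * J').trace = 0 := by linear_combination t1
      exact (mul_eq_zero.mp t2).resolve_left h2K
    have t3 := hc l 0
    unfold tr
    rw [hρ, Matrix.trace_add, Matrix.trace_add, Matrix.trace_add, Matrix.trace_smul,
      Matrix.trace_smul, Matrix.trace_smul, Matrix.trace_smul, i4, i5, t0, smul_zero, smul_zero,
      smul_zero, add_zero, add_zero, add_zero, Matrix.trace_one, Fintype.card_fin, smul_eq_mul]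
    apply mul_right_cancel₀ hD0
    rw [mul_right_comm, t3]
    simp only [esx_n0, map_mul, esx_j2]
    push_cast
    ring

end Pool.Agent.F8
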