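import Pool.Agent.Lib.MP_305fdd_al.F8.StmE
import Pool.Agent.Lib.MP_305fdd_al.F8.StmD

set_option autoImplicit false

namespace Pool.Agent.F8

open Pool.Agent.MP_305fdd_al Pool.Agent.Lib.MP_305fdd_al Pool.Agent.F2X

theorem eout_inj {K : Type} [Field K] [CharZero K] (w : K) (hw : w * w = ((-1 : ℤ) : K) * w - 1) :
    Function.Injective (ev0 w hw) := by
  rw [injective_iff_map_eq_zero]
  intro z hz
  have h1 : ev0 w hw (z * star z) = 0 := by rw [map_mul, hz, zero_mul]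
  rw [mul_star_nn, map_intCast] at h1
  have h2 : (nn z : ℤ) = 0 := by exact_mod_cast h1
  exact nn_eq_zero.mp (by exact_mod_cast h2)

/-- from the output of parts A to D to the input of part H -/
theorem E_out (h : S_E) (Λ : Type) [Group Λ] (Φ : NatBij G8 Λ) (T : Λ → O)
    (s : Λ →* SL2 (AlgebraicClosure ℚ)) (w : AlgebraicClosure ℚ)
    (hw : w * w = ((-1 : ℤ) : AlgebraicClosure ℚ) * w - 1) (hO : Out Φ T s w hw) :
    ∃ ρ : Λ →* SL2 O, ∀ l, tr (ρ l) = T l := by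
  refine h Λ (AlgebraicClosure ℚ) (ev0 w hw) (eout_inj w hw) s T hO.char hO.irr ?_
  intro p hp _ k
  have : Fact p.Prime := ⟨hp⟩
  obtain ⟨c, _, hc⟩ := hO.red p
  cases c
  · exact ⟨RingHom.id O, Or.inl rfl, Φ.toFun _ (r8 (ZMod (p ^ k))), fun l => (hc k l).symm⟩
  · exact ⟨starRingEnd O, Or.inr rfl, Φ.toFun _ (r8 (ZMod (p ^ k))), fun l => (hc k l).symm⟩

end Pool.Agent.F8
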