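import Pool.Agent.Lib.MP_305fdd_al.F8.E.Ech
import Pool.Agent.Lib.MP_305fdd_al.F8.E.Eid
import Pool.Agent.Lib.MP_305fdd_al.F8.E.Ekr
import Pool.Agent.Lib.MP_305fdd_al.F8.E.Epr
import Pool.Agent.Lib.MP_305fdd_al.F8.E.Els
import Pool.Agent.Lib.MP_305fdd_al.F8.E.Evl
import Pool.Agent.Lib.MP_305fdd_al.F8.E.Esc
import Pool.Agent.Lib.MP_305fdd_al.F8.E.Esq
import Pool.Agent.Lib.MP_305fdd_al.F8.E.Esb
import Pool.Agent.Lib.MP_305fdd_al.F8.E.Enm
import Pool.Agent.Lib.MP_305fdd_al.F8.E.Eds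
import Pool.Agent.Lib.MP_305fdd_al.F8.E.Eun
import Pool.Agent.Lib.MP_305fdd_al.F8.E.Elg
import Pool.Agent.Lib.MP_305fdd_al.F8.E.Edc
import Pool.Agent.Lib.MP_305fdd_al.F8.E.Ect
import Pool.Agent.Lib.MP_305fdd_al.F8.E.Esp
import Pool.Agent.Lib.MP_305fdd_al.F8.E.Esx
import Pool.Agent.Lib.MP_305fdd_al.F8.E.El1
import Pool.Agent.Lib.MP_305fdd_al.F8.E.El2
import Pool.Agent.Lib.MP_305fdd_al.F8.E.E
import Pool.Agent.Lib.MP_305fdd_al.F8.E.Out

/-!
# Figure-eight knot group, block E: assembly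
-/

set_option autoImplicit false

namespace Pool.Agent.F8

/-- Block E: characters with values in `O` which are locally characters over `O` are characters of
representations over `O`. -/
theorem E_main : S_E :=
  p_E p_Ech (p_Els p_Eid p_Ekr p_Epr)
    (p_Elg (p_Esc p_Evl) (p_Esb p_Esq) p_Enm (p_Eds p_Evl) p_Eun)
    (p_Esx p_Edc p_Ect p_Esp) p_El1 p_El2

end Pool.Agent.F8
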